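import Pool.Agent.MP_2e8011_m.Sub

/-! A digraph with in- and out-degree at most two whose alternating cycles have at most eight
arcs. -/

namespace Pool.Agent.MP_2e8011_m

open SimpleGraph Pool.Agent.MP_2e8011_lc

/-- Cells with a spine order `nx`, clause cycles `dn`, row ends, and cells carrying a literal. -/
structure Net (X : Type) where
  nx : X ≃ X
  dn : X ≃ X
  brk : X → Prop
  has : X → Prop

/-- Unconditional arcs inside a cell. -/
def locC (r t : ℕ) : Prop :=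
  (t = r + 1 ∧ (r = 0 ∨ r = 1 ∨ r = 3 ∨ r = 4 ∨ r = 6)) ∨
  (r = t + 1 ∧ (t = 0 ∨ t = 1 ∨ t = 3 ∨ t = 4 ∨ t = 8)) ∨
  (r = 2 ∧ t = 6) ∨ (r = 8 ∧ (t = 6 ∨ t = 3)) ∨ (r = 0 ∧ t = 5) ∨ (r = 7 ∧ t = 10)

/-- The arc relation for arbitrary neighbour functions. -/
def arcC {X : Type} (nx dn : X → X) (brk has : X → Prop) (x : X) (r : ℕ) (y : X) (t : ℕ) :
    Prop :=
  (y = x ∧ (locC r t ∨ (has x ∧ ((r = 6 ∧ t = 8) ∨ (r = 9 ∧ t = 7))) ∨
    (brk x ∧ r = 3 ∧ t = 10) ∨ (¬ brk x ∧ r = 5 ∧ t = 10))) ∨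
  (y = nx x ∧ ((brk x ∧ r = 10 ∧ (t = 0 ∨ t = 2)) ∨
    (¬ brk x ∧ ((r = 7 ∧ t = 2) ∨ (r = 3 ∧ t = 0))))) ∨
  (y = dn x ∧ t = 9 ∧ ((brk x ∧ (r = 5 ∨ r = 7)) ∨ (¬ brk x ∧ r = 10)))

namespace Net

variable {X : Type} (g : Net X)

/-- The digraph. -/
def D (u w : X × Fin 11) : Prop := arcC g.nx g.dn g.brk g.has u.1 u.2.val w.1 w.2.val

theorem out {x : X} {r : Fin 11} {w : X × Fin 11} (h : g.D (x, r) w) :
    (r = 0 → w = (x, 1) ∨ w = (x, 5)) ∧ (r = 1 → w = (x, 0) ∨ w = (x, 2)) ∧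
    (r = 2 → w = (x, 1) ∨ w = (x, 6)) ∧
    (r = 3 → w = (x, 4) ∨ (g.brk x ∧ w = (x, 10)) ∨ (¬ g.brk x ∧ w = (g.nx x, 0))) ∧
    (r = 4 → w = (x, 3) ∨ w = (x, 5)) ∧
    (r = 5 → w = (x, 4) ∨ (g.brk x ∧ w = (g.dn x, 9)) ∨ (¬ g.brk x ∧ w = (x, 10))) ∧
    (r = 6 → w = (x, 7) ∨ (w = (x, 8) ∧ g.has x)) ∧
    (r = 7 → w = (x, 10) ∨ (g.brk x ∧ w = (g.dn x, 9)) ∨ (¬ g.brk x ∧ w = (g.nx x, 2))) ∧
    (r = 8 → w = (x, 3) ∨ w = (x, 6)) ∧ (r = 9 → w = (x, 7) ∨ w = (x, 8)) ∧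
    (r = 10 → (g.brk x ∧ (w = (g.nx x, 0) ∨ w = (g.nx x, 2))) ∨ (¬ g.brk x ∧ w = (g.dn x, 9))) := by
  obtain ⟨y, t⟩ := w
  refine ⟨?_, ?_, ?_, ?_, ?_, ?_, ?_, ?_, ?_, ?_, ?_⟩
  all_goals
    rintro rfl
    simp only [D, arcC, locC, Prod.ext_iff, Fin.ext_iff, Fin.coe_ofNat_eq_mod,
      Nat.reduceMod] at h ⊢
    grind

theorem inn {x : X} {t : Fin 11} {u : X × Fin 11} (h : g.D u (x, t)) :
    (t = 0 → u = (x, 1) ∨ (g.brk (g.nx.symm x) ∧ u = (g.nx.symm x, 10)) ∨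
      (¬ g.brk (g.nx.symm x) ∧ u = (g.nx.symm x, 3))) ∧
    (t = 1 → u = (x, 0) ∨ u = (x, 2)) ∧
    (t = 2 → u = (x, 1) ∨ (g.brk (g.nx.symm x) ∧ u = (g.nx.symm x, 10)) ∨
      (¬ g.brk (g.nx.symm x) ∧ u = (g.nx.symm x, 7))) ∧
    (t = 3 → u = (x, 4) ∨ u = (x, 8)) ∧ (t = 4 → u = (x, 3) ∨ u = (x, 5)) ∧
    (t = 5 → u = (x, 0) ∨ u = (x, 4)) ∧ (t = 6 → u = (x, 2) ∨ u = (x, 8)) ∧
    (t = 7 → u = (x, 6) ∨ u = (x, 9)) ∧ (t = 8 → u = (x, 6) ∨ u = (x, 9)) ∧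
    (t = 9 → (g.brk (g.dn.symm x) ∧ (u = (g.dn.symm x, 5) ∨ u = (g.dn.symm x, 7))) ∨
      (¬ g.brk (g.dn.symm x) ∧ u = (g.dn.symm x, 10))) ∧
    (t = 10 → u = (x, 7) ∨ (g.brk x ∧ u = (x, 3)) ∨ (¬ g.brk x ∧ u = (x, 5))) := by
  obtain ⟨y, r⟩ := u
  have e1 := g.nx.symm_apply_apply y
  have e2 := g.dn.symm_apply_apply y
  refine ⟨?_, ?_, ?_, ?_, ?_, ?_, ?_, ?_, ?_, ?_, ?_⟩
  all_goals
    rintro rfl
    simp only [D, arcC, locC, Prod.ext_iff, Fin.ext_iff, Fin.coe_ofNat_eq_mod,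
      Nat.reduceMod] at h ⊢
    grind

theorem out_two (u : X × Fin 11) : ∃ p q, ∀ w, g.D u w → w = p ∨ w = q := by
  obtain ⟨x, r⟩ := u
  have key : ∀ p q : X × Fin 11, (∀ w, g.D (x, r) w → w = p ∨ w = q) →
      ∃ p q, ∀ w, g.D (x, r) w → w = p ∨ w = q := fun p q h => ⟨p, q, h⟩
  by_cases hb : g.brk x <;> fin_cases r
  all_goals first
    | exact key _ _ fun w h => (g.out h).1 rfl
    | exact key _ _ fun w h => (g.out h).2.1 rfl
    | exact key _ _ fun w h => (g.out h).2.2.1 rfl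
    | exact key _ _ fun w h => by simpa [hb] using (g.out h).2.2.2.1 rfl
    | exact key _ _ fun w h => (g.out h).2.2.2.2.1 rfl
    | exact key _ _ fun w h => by simpa [hb] using (g.out h).2.2.2.2.2.1 rfl
    | exact key _ _ fun w h => ((g.out h).2.2.2.2.2.2.1 rfl).imp_right And.left
    | exact key _ _ fun w h => by simpa [hb] using (g.out h).2.2.2.2.2.2.2.1 rfl
    | exact key _ _ fun w h => (g.out h).2.2.2.2.2.2.2.2.1 rfl
    | exact key _ _ fun w h => (g.out h).2.2.2.2.2.2.2.2.2.1 rfl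
    | exact key _ _ fun w h => by simpa [hb] using (g.out h).2.2.2.2.2.2.2.2.2.2 rfl
    | exact key (g.dn x, 9) (g.dn x, 9) fun w h => by
        simpa [hb] using (g.out h).2.2.2.2.2.2.2.2.2.2 rfl

theorem in_two (w : X × Fin 11) : ∃ p q, ∀ u, g.D u w → u = p ∨ u = q := by
  obtain ⟨x, r⟩ := w
  fin_cases r
  · by_cases hb : g.brk (g.nx.symm x) <;>
      exact ⟨_, _, fun w h => by simpa [hb] using (g.inn h).1 rfl⟩
  · exact ⟨_, _, fun w h => (g.inn h).2.1 rfl⟩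
  · by_cases hb : g.brk (g.nx.symm x) <;>
      exact ⟨_, _, fun w h => by simpa [hb] using (g.inn h).2.2.1 rfl⟩
  · exact ⟨_, _, fun w h => (g.inn h).2.2.2.1 rfl⟩
  · exact ⟨_, _, fun w h => (g.inn h).2.2.2.2.1 rfl⟩
  · exact ⟨_, _, fun w h => (g.inn h).2.2.2.2.2.1 rfl⟩
  · exact ⟨_, _, fun w h => (g.inn h).2.2.2.2.2.2.1 rfl⟩
  · exact ⟨_, _, fun w h => (g.inn h).2.2.2.2.2.2.2.1 rfl⟩
  · exact ⟨_, _, fun w h => (g.inn h).2.2.2.2.2.2.2.2.1 rfl⟩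
  · by_cases hb : g.brk (g.dn.symm x)
    · exact ⟨_, _, fun w h => by simpa [hb] using (g.inn h).2.2.2.2.2.2.2.2.2.1 rfl⟩
    · exact ⟨(g.dn.symm x, 10), (g.dn.symm x, 10), fun w h => by
        simpa [hb] using (g.inn h).2.2.2.2.2.2.2.2.2.1 rfl⟩
  · by_cases hb : g.brk x <;>
      exact ⟨_, _, fun w h => by simpa [hb] using (g.inn h).2.2.2.2.2.2.2.2.2.2 rfl⟩

theorem sound [Finite X] {σ : X × Fin 11 → X × Fin 11} (hD : ∀ v, g.D v (σ v))
    (hinj : Function.Injective σ)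
    (hcl : ∀ S : X × Fin 11 → Prop, (∀ v, S v → S (σ v)) → ∀ u v, S u → S v) :
    ∃ val zz : X → Prop, (∀ x, ¬ g.brk x → (val (g.nx x) ↔ ¬ val x)) ∧
      (∀ x, zz x → val x ∧ g.has x) ∧
      ∀ S : X → Prop, (∀ x, S x → S (g.dn x)) → ∀ x, S x → ∃ y, S y ∧ zz y := by
  have hsurj : Function.Surjective σ := Finite.surjective_of_injective hinj
  have hi : ∀ u w, σ u = σ w → u = w := fun u w h => hinj h
  have h2 : ∀ v, σ (σ v) ≠ v := by
    intro v hv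
    have := hcl (fun u => u = v ∨ u = σ v) (by
      rintro _ (rfl | rfl)
      · exact Or.inr rfl
      · exact Or.inl hv) v
    have e0 := this (v.1, 0) (Or.inl rfl)
    have e1 := this (v.1, 1) (Or.inl rfl)
    have e2 := this (v.1, 2) (Or.inl rfl)
    clear * - e0 e1 e2
    grind
  have t1 : ∀ x, (σ (x, 0) = (x, 1) ∧ σ (x, 1) = (x, 2)) ∨
      (σ (x, 2) = (x, 1) ∧ σ (x, 1) = (x, 0)) := by
    intro x
    obtain ⟨u, hu⟩ := hsurj (x, 1)
    have e1 := (g.inn (hu ▸ hD u)).2.1 rfl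
    have e2 := (g.out (hD (x, 1))).2.1 rfl
    have e3 := h2 (x, 1)
    clear * - hu e1 e2 e3
    grind
  have t2 : ∀ x, (σ (x, 3) = (x, 4) ∧ σ (x, 4) = (x, 5)) ∨
      (σ (x, 5) = (x, 4) ∧ σ (x, 4) = (x, 3)) := by
    intro x
    obtain ⟨u, hu⟩ := hsurj (x, 4)
    have e1 := (g.inn (hu ▸ hD u)).2.2.2.2.1 rfl
    have e2 := (g.out (hD (x, 4))).2.2.2.2.1 rfl
    have e3 := h2 (x, 4)
    clear * - hu e1 e2 e3
    grind
  have t3 : ∀ x, (σ (x, 1) = (x, 2) ∧ σ (x, 8) = (x, 3) ∧ σ (x, 3) = (x, 4) ∧ σ (x, 4) = (x, 5)) ∨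
      (σ (x, 1) = (x, 0) ∧ σ (x, 8) = (x, 6) ∧ σ (x, 5) = (x, 4) ∧ σ (x, 4) = (x, 3)) := by
    intro x
    have e1 := t1 x
    have e2 := t2 x
    have e3 := (g.out (hD (x, 0))).1 rfl
    have e4 := (g.out (hD (x, 2))).2.2.1 rfl
    have e5 := (g.out (hD (x, 8))).2.2.2.2.2.2.2.2.1 rfl
    have e6 := hi (x, 0) (x, 2)
    have e7 := hi (x, 2) (x, 8)
    have e8 := hi (x, 8) (x, 4)
    have e9 := hi (x, 0) (x, 4)
    clear * - e1 e2 e3 e4 e5 e6 e7 e8 e9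
    grind
  have t4 : ∀ x, ¬ g.brk x → (σ (x, 1) = (x, 2) ∧ σ (x, 5) = (x, 10) ∧
      σ (g.nx x, 1) = (g.nx x, 0)) ∨
      (σ (x, 1) = (x, 0) ∧ σ (x, 7) = (x, 10) ∧ σ (g.nx x, 1) = (g.nx x, 2)) := by
    intro x hb
    have e1 := t3 x
    have e2 := (g.out (hD (g.nx x, 1))).2.1 rfl
    have e3 := (g.out (hD (x, 3))).2.2.2.1 rfl
    have e4 := (g.out (hD (x, 5))).2.2.2.2.2.1 rfl
    have e5 := (g.out (hD (x, 7))).2.2.2.2.2.2.2.1 rfl
    have e6 := hi (x, 3) (x, 5)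
    have e7 := hi (x, 5) (x, 7)
    have e8 := hi (x, 7) (g.nx x, 1)
    have e9 := hi (x, 3) (g.nx x, 1)
    generalize g.nx x = y at *
    generalize g.dn x = z at *
    clear * - hb e1 e2 e3 e4 e5 e6 e7 e8 e9
    grind
  have t5 : ∀ x, g.brk x → (σ (x, 1) = (x, 2) ∧ σ (x, 5) = (g.dn x, 9)) ∨
      (σ (x, 1) = (x, 0) ∧ σ (x, 7) = (g.dn x, 9)) := by
    intro x hb
    have e1 := t3 x
    have e3 := (g.out (hD (x, 3))).2.2.2.1 rfl
    have e4 := (g.out (hD (x, 5))).2.2.2.2.2.1 rfl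
    have e5 := (g.out (hD (x, 7))).2.2.2.2.2.2.2.1 rfl
    have e6 := hi (x, 3) (x, 5)
    have e7 := hi (x, 3) (x, 7)
    generalize g.nx x = y at *
    generalize g.dn x = z at *
    clear * - hb e1 e3 e4 e5 e6 e7
    grind
  refine ⟨fun x => σ (x, 1) = (x, 2), fun x => σ (x, 6) ≠ (x, 7),
    fun x hx => ?_, fun x hz => ?_, fun S hS x hx => ?_⟩
  · have e1 := t4 x hx
    beta_reduce
    generalize g.nx x = y at *
    clear * - e1
    grind
  · have e1 := t3 x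
    have e2 := (g.out (hD (x, 6))).2.2.2.2.2.2.1 rfl
    have e3 := h2 (x, 6)
    beta_reduce at hz ⊢
    clear * - hz e1 e2 e3
    grind
  · by_contra hno
    push Not at hno
    have := hcl (fun v => S v.1 ∧ (v.2 = 8 ∨ v.2 = 9 ∨ (v.2 = 10 ∧ ¬ g.brk v.1) ∨
      (σ (v.1, 1) = (v.1, 2) ∧ (v.2 = 3 ∨ v.2 = 4 ∨ v.2 = 5)) ∨
      (σ (v.1, 1) = (v.1, 0) ∧ (v.2 = 6 ∨ v.2 = 7)))) (by
      rintro ⟨y, r⟩ ⟨hy, hr⟩
      have e0 := hS y hy
      have e1 := t3 y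
      have e2 := t4 y
      have e3 := t5 y
      have e4 := hno y hy
      have e5 := (g.out (hD (y, 9))).2.2.2.2.2.2.2.2.2.1 rfl
      have e6 := (g.out (hD (y, 10))).2.2.2.2.2.2.2.2.2.2 rfl
      have e7 := hi (y, 6) (y, 9)
      simp only at hy hr
      generalize g.nx y = y' at *
      generalize g.dn y = z at *
      clear * - hy hr e0 e1 e2 e3 e4 e5 e6 e7
      rcases hr with rfl | rfl | ⟨rfl, hr⟩ | ⟨hr, rfl | rfl | rfl⟩ | ⟨hr, rfl | rfl⟩ <;>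
        grind) (x, 9) (x, 0) ⟨hx, Or.inr (Or.inl rfl)⟩
    simp at this

open Classical in
/-- The vertex by which a cell is entered. -/
noncomputable def ent (val : X → Prop) (x : X) : X × Fin 11 := if val x then (x, 0) else (x, 2)

open Classical in
/-- The successor function attached to a consistent choice of states. -/
noncomputable def succ (val zz : X → Prop) (u : X × Fin 11) : X × Fin 11 :=
  match u.2.val with
  | 0 => if val u.1 then (u.1, 1) else (u.1, 5)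
  | 1 => if val u.1 then (u.1, 2) else (u.1, 0)
  | 2 => if val u.1 then (u.1, 6) else (u.1, 1)
  | 3 => if val u.1 then (u.1, 4) else if g.brk u.1 then (u.1, 10) else ent val (g.nx u.1)
  | 4 => if val u.1 then (u.1, 5) else (u.1, 3)
  | 5 => if val u.1 then (if g.brk u.1 then (g.dn u.1, 9) else (u.1, 10)) else (u.1, 4)
  | 6 => if zz u.1 then (u.1, 8) else (u.1, 7)
  | 7 => if val u.1 then (if g.brk u.1 then (u.1, 10) else ent val (g.nx u.1))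
      else (if g.brk u.1 then (g.dn u.1, 9) else (u.1, 10))
  | 8 => if val u.1 then (u.1, 3) else (u.1, 6)
  | 9 => if zz u.1 then (u.1, 7) else (u.1, 8)
  | _ => if g.brk u.1 then ent val (g.nx u.1) else (g.dn u.1, 9)

theorem complete {val zz : X → Prop} (h1 : ∀ x, ¬ g.brk x → (val (g.nx x) ↔ ¬ val x))
    (h2 : ∀ x, zz x → val x ∧ g.has x)
    (hu : ∀ x k, zz x → zz (g.dn^[k] x) → g.dn^[k] x = x)
    (he : ∀ y, ∃ x k, zz x ∧ g.dn^[k + 1] x = y)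
    (x₀ : X) (hx : ∀ x, ∃ k, g.nx^[k] x₀ = x) :
    ∃ (σ : X × Fin 11 → X × Fin 11) (s : X × Fin 11), (∀ v, g.D v (σ v)) ∧
      (∀ v, ∃ n, σ^[n] s = v) ∧ ∃ n, 0 < n ∧ σ^[n] s = s := by
  classical
  have hD : ∀ v, g.D v (g.succ val zz v) := by
    rintro ⟨x, r⟩
    have e1 := h1 x
    have e2 := h2 x
    clear h1 h2 hu he hx
    fin_cases r <;> simp only [D, succ, ent] <;> split_ifs <;> simp_all [arcC, locC]
  let P : X × Fin 11 → Prop := fun u => ∃ n, 0 < n ∧ (g.succ val zz)^[n] (ent val x₀) = u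
  have hP : ∀ u, P u → P (g.succ val zz u) := by
    rintro u ⟨n, hn, rfl⟩
    exact ⟨n + 1, by omega, Function.iterate_succ_apply' _ _ _⟩
  have hP0 : P (g.succ val zz (ent val x₀)) := ⟨1, one_pos, rfl⟩
  suffices hall : ∀ v, P v from
    ⟨_, ent val x₀, hD, fun v => (hall v).imp fun n h => h.2, hall _⟩
  clear_value P
  have col : ∀ y, ¬ zz y → P (y, 9) → P (g.dn y, 9) ∧ P (y, 8) ∧
      (val y → P (y, 3) ∧ P (y, 4) ∧ P (y, 5)) ∧ (¬ val y → P (y, 6) ∧ P (y, 7)) ∧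
      (¬ g.brk y → P (y, 10)) := by
    intro y hy h9
    have a3 := hP (y, 3)
    have a4 := hP (y, 4)
    have a5 := hP (y, 5)
    have a6 := hP (y, 6)
    have a7 := hP (y, 7)
    have a8 := hP (y, 8)
    have a9 := hP (y, 9) h9
    have a10 := hP (y, 10)
    simp only [succ, Fin.coe_ofNat_eq_mod, Nat.reduceMod] at a3 a4 a5 a6 a7 a8 a9 a10
    clear hP hD hx h1 h2 hu he hP0
    by_cases hv : val y <;> by_cases hb : g.brk y <;> simp_all
  have loop : ∀ x, zz x → P (g.dn x, 9) → ∀ k, P (g.dn^[k + 1] x, 9) := by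
    intro x hz h0 k
    induction k with
    | zero => exact h0
    | succ k ih =>
      rw [Function.iterate_succ_apply']
      by_cases hy : zz (g.dn^[k + 1] x)
      · rwa [hu x _ hz hy]
      · exact (col _ hy ih).1
  have back : ∀ x, zz x → P (g.dn x, 9) → P (x, 9) := by
    intro x hz h0
    obtain ⟨y, k, hy, e⟩ := he x
    have := hu y (k + 1) hy (e ▸ hz)
    rw [e] at this
    subst this
    have := loop x hz h0 k
    rwa [e] at this
  have key : ∀ x, P (g.succ val zz (ent val x)) → P (ent val (g.nx x)) ∧ P (x, 1) ∧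
      (val x → P (x, 2) ∧ P (x, 6) ∧ P (x, 7)) ∧
      (¬ val x → P (x, 0) ∧ P (x, 3) ∧ P (x, 4) ∧ P (x, 5)) ∧ (g.brk x → P (x, 10)) ∧
      (zz x → P (g.dn x, 9) ∧ P (x, 8) ∧ P (x, 3) ∧ P (x, 4) ∧ P (x, 5) ∧ P (x, 10)) := by
    intro x h0
    have a0 := hP (x, 0)
    have a1 := hP (x, 1)
    have a2 := hP (x, 2)
    have a3 := hP (x, 3)
    have a4 := hP (x, 4)
    have a5 := hP (x, 5)
    have a6 := hP (x, 6)
    have a7 := hP (x, 7)
    have a8 := hP (x, 8)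
    have a9 := hP (x, 9)
    have a10 := hP (x, 10)
    have b := back x
    have e2 := h2 x
    by_cases hv : val x
    · rw [ent, if_pos hv] at h0
      simp only [succ, Fin.coe_ofNat_eq_mod, Nat.reduceMod] at h0 a0 a1 a2 a3 a4 a5 a6 a7 a8 a9 a10
      clear hP hD hx h1 h2 hu he loop back hP0 col
      by_cases hz : zz x <;> by_cases hb : g.brk x <;> simp_all
    · rw [ent, if_neg hv] at h0
      simp only [succ, Fin.coe_ofNat_eq_mod, Nat.reduceMod] at h0 a0 a1 a2 a3 a4 a5 a6 a7 a8 a9 a10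
      clear hP hD hx h1 h2 hu he loop back hP0 col
      by_cases hz : zz x <;> by_cases hb : g.brk x <;> simp_all
  have hk : ∀ k, P (ent val (g.nx^[k + 1] x₀)) := by
    intro k
    induction k with
    | zero => exact (key x₀ hP0).1
    | succ k ih =>
      rw [Function.iterate_succ_apply']
      exact (key _ (hP _ ih)).1
  have h0 : ∀ x, P (ent val x) := by
    intro x
    obtain ⟨k, hk'⟩ := hx (g.nx.symm x)
    have := hk k
    rwa [Function.iterate_succ_apply', hk', Equiv.apply_symm_apply] at this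
  have h9 : ∀ y, P (y, 9) := by
    intro y
    obtain ⟨x, k, hz, rfl⟩ := he y
    exact loop x hz ((key x (hP _ (h0 x))).2.2.2.2.2 hz).1 k
  rintro ⟨x, r⟩
  have e0 := h0 x
  have e1 := key x (hP _ e0)
  have e2 := fun h => col x h (h9 x)
  have e3 := h2 x
  have f : P (x, 0) ∧ P (x, 1) ∧ P (x, 2) ∧ P (x, 3) ∧ P (x, 4) ∧ P (x, 5) ∧ P (x, 6) ∧
      P (x, 7) ∧ P (x, 8) ∧ P (x, 10) := by
    rw [ent] at e0
    clear * - e0 e1 e2 e3
    by_cases hv : val x <;> by_cases hz : zz x <;> by_cases hb : g.brk x <;> simp_all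
  obtain ⟨f0, f1, f2, f3, f4, f5, f6, f7, f8, f10⟩ := f
  fin_cases r
  exacts [f0, f1, f2, f3, f4, f5, f6, f7, f8, h9 x, f10]

/-- The kind of the component of an end. -/
def kind (k : Bool) (r : Fin 11) (b : Bool) : ℕ :=
  if b then (if r.val = 1 ∧ k then 3 else [0, 2, 0, 2, 0, 2, 1, 2, 0, 1, 3].getD r.val 0)
  else (if (r.val = 0 ∨ r.val = 2) ∧ k then 3 else if r.val = 9 ∧ k then 2
    else [2, 0, 2, 0, 2, 0, 0, 1, 1, 3, 2].getD r.val 0)

/-- The cell of the component of an end. -/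
def home (x : X) (r : Fin 11) (b : Bool) : X :=
  if b then (if r.val = 1 then g.nx.symm x else x)
  else (if r.val = 0 ∨ r.val = 2 then g.nx.symm x else if r.val = 9 then g.dn.symm x else x)

/-- The position of an end in its component. -/
def tag (r : Fin 11) (b : Bool) : ℕ :=
  if b then [0, 3, 1, 0, 2, 1, 0, 2, 3, 1, 0].getD r.val 0
  else [6, 4, 7, 5, 4, 6, 7, 4, 5, 6, 5].getD r.val 0

theorem tag_lt : ∀ r b, tag r b < 8 := by decide

theorem tag_inj : ∀ k r b t c, kind k r b = kind k t c → tag r b = tag t c → r = t ∧ b = c := by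
  decide

theorem free {m j : ℕ} (hm : 6 ≤ m) (hj : m ≤ j) : (treeH m).Free (subdiv g.D j) := by
  classical
  refine subdiv_free_le (L := 8) (by omega) hj (by omega)
    (fun e => (g.home e.1.1 e.1.2 e.2,
      kind (decide (g.brk (g.home e.1.1 e.1.2 e.2))) e.1.2 e.2)) (fun e => tag e.1.2 e.2)
    (fun e => tag_lt _ _) ?_ ?_
  · rintro ⟨⟨x, r⟩, b⟩ ⟨⟨y, t⟩, c⟩ hc ht
    simp only [Prod.mk.injEq] at hc ht
    have h4 := hc.1
    have h5 := hc.2
    rw [← h4] at h5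
    obtain ⟨rfl, rfl⟩ := tag_inj _ _ _ _ _ h5 ht
    simp only [home] at h4
    split_ifs at h4 <;> simp_all
  · rintro ⟨x, r⟩ w h
    have e := g.out h
    by_cases hb : g.brk x <;> fin_cases r <;> simp [hb] at e
    all_goals first
      | (rcases e with rfl | rfl <;> simp [home, kind, hb])
      | (rcases e with rfl | ⟨rfl, -⟩ <;> simp [home, kind, hb])

end Net

end Pool.Agent.MP_2e8011_m
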