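import Pool.Agent.MP_2e8011_m.Gad

/-! The reduction from satisfiability to subcubic bipartite graphs. -/

namespace Pool.Agent.MP_2e8011_m

open SimpleGraph Pool.Agent.MP_2e8011_lc

theorem subdiv_deg {V : Type} {D : V → V → Prop} {j : ℕ} (hj : 1 ≤ j)
    (ho : ∀ u, ∃ p q, ∀ w, D u w → w = p ∨ w = q) (hi : ∀ w, ∃ p q, ∀ u, D u w → u = p ∨ u = q)
    (a : V × Fin (j + 2)) : ((subdiv D j).neighborSet a).ncard ≤ 3 := by
  obtain ⟨v, i⟩ := a
  have key : ∀ p q r : V × Fin (j + 2), (∀ b, (subdiv D j).Adj (v, i) b → b = p ∨ b = q ∨ b = r) →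
      ((subdiv D j).neighborSet (v, i)).ncard ≤ 3 := by
    intro p q r h
    refine (Set.ncard_le_ncard (t := {p, q, r}) (fun b hb => h b hb)).trans ?_
    refine (Set.ncard_insert_le _ _).trans (Nat.succ_le_succ ?_)
    refine (Set.ncard_insert_le _ _).trans (Nat.succ_le_succ ?_)
    simp
  have hlt := i.2
  by_cases h0 : i.val = 0
  · obtain ⟨p, q, h⟩ := hi v
    refine key (v, ⟨1, by omega⟩) (p, Fin.last _) (q, Fin.last _) ?_
    rintro ⟨w, k⟩ hb
    rw [subdiv_adj] at hb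
    have := h w
    simp only [Prod.mk.injEq, Fin.ext_iff, Fin.val_last] at hb ⊢
    grind
  by_cases h1 : i.val = j + 1
  · obtain ⟨p, q, h⟩ := ho v
    refine key (v, ⟨j, by omega⟩) (p, 0) (q, 0) ?_
    rintro ⟨w, k⟩ hb
    rw [subdiv_adj] at hb
    have := h w
    have := k.2
    simp only [Prod.mk.injEq, Fin.ext_iff, Fin.val_zero] at hb ⊢
    grind
  · refine key (v, ⟨i.val + 1, by omega⟩) (v, ⟨i.val - 1, by omega⟩) (v, i) ?_
    rintro ⟨w, k⟩ hb
    rw [subdiv_adj] at hb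
    simp only [Prod.mk.injEq, Fin.ext_iff] at hb ⊢
    grind

/-- Two steps for each step of `e`. -/
def dbl {X : Type} (e : X ≃ X) : X × Fin 2 ≃ X × Fin 2 where
  toFun x := (if x.2.val = 0 then x.1 else e x.1, x.2 + 1)
  invFun x := (if x.2.val = 0 then e.symm x.1 else x.1, x.2 + 1)
  left_inv := by
    rintro ⟨x, s⟩
    fin_cases s <;> simp
  right_inv := by
    rintro ⟨x, s⟩
    fin_cases s <;> simp

theorem dbl_zero {X : Type} (e : X ≃ X) (x : X) : dbl e (x, 0) = (x, 1) := by simp [dbl]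

theorem dbl_one {X : Type} (e : X ≃ X) (x : X) : dbl e (x, 1) = (e x, 0) := by simp [dbl]

theorem dbl_two {X : Type} (e : X ≃ X) (k : ℕ) (x : X) (s : Fin 2) :
    (dbl e)^[2 * k] (x, s) = (e^[k] x, s) := by
  induction k with
  | zero => rfl
  | succ k ih =>
    rw [Nat.mul_succ, Function.iterate_succ_apply', Function.iterate_succ_apply', ih,
      Function.iterate_succ_apply']
    fin_cases s
    · exact (congrArg _ (dbl_zero e _)).trans (dbl_one e _)
    · exact (congrArg _ (dbl_one e _)).trans (dbl_zero e _)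

/-- The cells of a formula: variable, column, sign. -/
abbrev Cell (φ : CNF) : Type := (Fin (sz φ + 1) × Fin (φ.length + 1)) × Fin 2

/-- The net of a formula. -/
def net (φ : CNF) : Net (Cell φ) where
  nx := dbl (grid φ).nx
  dn := dbl (grid φ).dn
  brk x := x.2.val = 1 ∧ x.1.2.val = φ.length
  has x := (x.2.val = 0 ∧ lit φ x.1.2.val x.1.1.val true) ∨
    (x.2.val = 1 ∧ lit φ x.1.2.val x.1.1.val false)

theorem dn_iter (φ : CNF) (k : ℕ) (x : Fin (sz φ + 1) × Fin (φ.length + 1)) :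
    ((grid φ).dn^[k] x).1.val = (x.1.val + k) % (sz φ + 1) ∧ ((grid φ).dn^[k] x).2 = x.2 := by
  induction k with
  | zero => exact ⟨(Nat.mod_eq_of_lt x.1.2).symm, rfl⟩
  | succ k ih =>
    rw [Function.iterate_succ_apply']
    generalize (grid φ).dn^[k] x = y at ih
    refine ⟨?_, ih.2⟩
    change (y.1 + 1).val = _
    rw [val_add_one', ih.1, Nat.mod_add_mod, add_assoc]

theorem dn_reach (φ : CNF) (v w : Fin (sz φ + 1)) (c : Fin (φ.length + 1)) :
    ∃ k, (grid φ).dn^[k + 1] (v, c) = (w, c) := by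
  have h1 := v.2
  have h2 := w.2
  refine ⟨w.val + sz φ - v.val, Prod.ext (Fin.ext ?_) (dn_iter φ _ _).2⟩
  rw [(dn_iter φ _ _).1]
  change (v.val + (w.val + sz φ - v.val + 1)) % (sz φ + 1) = _
  rw [show v.val + (w.val + sz φ - v.val + 1) = w.val + (sz φ + 1) by omega,
    Nat.add_mod_right, Nat.mod_eq_of_lt h2]

theorem dn_col (φ : CNF) (x : Cell φ) : ((net φ).dn x).1.2 = x.1.2 := by
  obtain ⟨x, s⟩ := x
  fin_cases s <;> rfl

theorem dn_col_iter (φ : CNF) (k : ℕ) (x : Cell φ) : ((net φ).dn^[k] x).1.2 = x.1.2 := by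
  induction k with
  | zero => rfl
  | succ k ih => rw [Function.iterate_succ_apply', dn_col, ih]

theorem net_reach (φ : CNF) (v w : Fin (sz φ + 1)) (c : Fin (φ.length + 1)) (s t : Fin 2) :
    ∃ k, (net φ).dn^[k + 1] ((v, c), s) = ((w, c), t) := by
  have same : ∀ w s, ∃ k, (net φ).dn^[k + 1] ((v, c), s) = ((w, c), s) := fun w s => by
    obtain ⟨k, hk⟩ := dn_reach φ v w c
    exact ⟨2 * k + 1, (dbl_two _ (k + 1) _ _).trans (by rw [hk])⟩
  fin_cases s <;> fin_cases t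
  · exact same w 0
  · obtain ⟨k, hk⟩ := same w 0
    exact ⟨k + 1, (Function.iterate_succ_apply' _ _ _).trans
      ((congrArg _ hk).trans (dbl_zero _ _))⟩
  · obtain ⟨k, hk⟩ := same (w - 1) 1
    refine ⟨k + 1, (Function.iterate_succ_apply' _ _ _).trans
      ((congrArg _ hk).trans ((dbl_one _ _).trans ?_))⟩
    simp [grid]
  · exact same w 1

theorem nx_step (φ : CNF) (v : Fin (sz φ + 1)) (c : ℕ) (hc : c + 1 < φ.length + 1) :
    (grid φ).nx (v, ⟨c, by omega⟩) = (v, ⟨c + 1, hc⟩) := by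
  have e1 : (⟨c, by omega⟩ : Fin (φ.length + 1)) + 1 = ⟨c + 1, hc⟩ := by
    ext; rw [val_add_one']; exact Nat.mod_eq_of_lt hc
  simp [grid, nxE, e1]

theorem ham_of_sat3 {φ : CNF} {j : ℕ} (hj : 1 ≤ j) (h : Sat φ) :
    HasHamiltonianCycle (subdiv (net φ).D j) := by
  obtain ⟨a, ha⟩ := h
  have hw : ∀ c : ℕ, ∃ v, v < sz φ + 1 ∧ lit φ c v (a v) := by
    intro c
    by_cases hc : φ.length ≤ c
    · exact ⟨0, by omega, Or.inl hc⟩
    · have hm : φ[c]'(by omega) ∈ φ := List.getElem_mem _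
      obtain ⟨l, hl, hl'⟩ := ha _ hm
      refine ⟨l.1, var_lt hm hl, Or.inr ?_⟩
      rw [hl', List.getD_eq_getElem _ _ (by omega)]
      exact hl
  choose w hw hw' using hw
  obtain ⟨σ, s, h1, h2, h3⟩ := (net φ).complete
    (val := fun x => (a x.1.1.val = true ↔ x.2.val = 0))
    (zz := fun x => x.1.1.val = w x.1.2.val ∧ (a x.1.1.val = true ↔ x.2.val = 0))
    (by
      rintro ⟨⟨v, c, hc⟩, s⟩ hb
      fin_cases s
      · change (a v.val = true ↔ 1 = 0) ↔ ¬ (a v.val = true ↔ 0 = 0)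
        simp
      · have hc' : c + 1 < φ.length + 1 := by
          simp only [net, true_and] at hb
          omega
        have e : (net φ).nx ((v, ⟨c, hc⟩), 1) = ((v, ⟨c + 1, hc'⟩), 0) :=
          (dbl_one _ _).trans (by rw [nx_step])
        change (a ((net φ).nx ((v, ⟨c, hc⟩), 1)).1.1.val = true ↔
          ((net φ).nx ((v, ⟨c, hc⟩), 1)).2.val = 0) ↔ ¬ (a v.val = true ↔ 1 = 0)
        rw [e]
        simp)
    (by
      rintro ⟨⟨v, c⟩, s⟩ ⟨h1, h2⟩
      refine ⟨h2, ?_⟩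
      have := hw' c.val
      have hs := s.2
      simp only at h1 h2
      rw [← h1] at this
      cases hb : a v.val
      · rw [hb] at this h2
        exact Or.inr ⟨by simp at h2; simp only; omega, this⟩
      · rw [hb] at this h2
        exact Or.inl ⟨h2.1 rfl, this⟩)
    (fun x k h1 h2 => by
      have e := dn_col_iter φ k x
      generalize (net φ).dn^[k] x = y at h2 e
      have e1 : y.1.1 = x.1.1 := Fin.ext (by rw [h2.1, h1.1, e])
      refine Prod.ext (Prod.ext e1 e) (Fin.ext ?_)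
      have a1 := h1.2
      have a2 := h2.2
      have := x.2.2
      have := y.2.2
      rw [e1, a1] at a2
      omega)
    (by
      rintro ⟨⟨v, c⟩, t⟩
      obtain ⟨k, hk⟩ := net_reach φ ⟨w c.val, hw _⟩ v c (if a (w c.val) = true then 0 else 1) t
      refine ⟨_, k, ⟨rfl, ?_⟩, hk⟩
      by_cases h : a (w c.val) = true <;> simp [h])
    ((0, 0), 0) (by
      rintro ⟨x, s⟩
      obtain ⟨k, hk⟩ := nxE_reach _ _ x
      have e : (net φ).nx^[2 * k] ((0, 0), 0) = (x, 0) := (dbl_two _ k _ _).trans (by rw [← hk]; rfl)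
      fin_cases s
      · exact ⟨_, e⟩
      · exact ⟨2 * k + 1, (Function.iterate_succ_apply' _ _ _).trans
          ((congrArg _ e).trans (dbl_zero _ _))⟩)
  exact subdiv_ham_of_succ hj σ h1 _ h2 h3

theorem sat_of_ham3 {φ : CNF} {j : ℕ} (hj : 1 ≤ j)
    (h : HasHamiltonianCycle (subdiv (net φ).D j)) : Sat φ := by
  classical
  obtain ⟨σ, h1, h2, h3⟩ := succ_closed hj h
  obtain ⟨val, zz, s1, s2, s3⟩ := (net φ).sound h1 h2 h3
  have hs : ∀ x, val (x, 1) ↔ ¬ val (x, 0) := fun x => by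
    have := s1 (x, 0) (by simp [net])
    rwa [show (net φ).nx (x, 0) = (x, 1) from dbl_zero _ _] at this
  have hval : ∀ v (c : ℕ) (hc : c < φ.length + 1), val ((v, ⟨c, hc⟩), 0) ↔ val ((v, 0), 0) := by
    intro v c
    induction c with
    | zero => intro _; rfl
    | succ c ih =>
      intro hc
      have e : (net φ).nx ((v, ⟨c, by omega⟩), 1) = ((v, ⟨c + 1, hc⟩), 0) :=
        (dbl_one _ _).trans (by rw [nx_step])
      have := s1 ((v, ⟨c, by omega⟩), 1) (by simp only [net]; omega)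
      rw [e, hs, not_not] at this
      rw [this, ih]
  have hz : ∀ c, ∃ v s, zz ((v, c), s) := by
    intro c
    obtain ⟨⟨⟨v, c'⟩, s⟩, rfl, h⟩ := s3 (fun x => c = x.1.2)
      (fun x hx => hx.trans (dn_col φ x).symm) ((0, c), 0) rfl
    exact ⟨v, s, h⟩
  refine ⟨fun v => if h : v < sz φ + 1 then decide (val ((⟨v, h⟩, 0), 0)) else false,
    fun cl hcl => ?_⟩
  obtain ⟨c, hc, rfl⟩ := List.getElem_of_mem hcl
  obtain ⟨v, s, hv⟩ := hz ⟨c, by omega⟩
  have hg : φ.getD c [] = φ[c] := List.getD_eq_getElem _ _ hc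
  obtain ⟨e1, ⟨e3, e2 | e2⟩ | ⟨e3, e2 | e2⟩⟩ := s2 _ hv
  · exact absurd hc (not_lt.2 e2)
  · rw [hg] at e2
    obtain rfl : s = 0 := Fin.ext e3
    refine ⟨_, e2, ?_⟩
    simpa [v.2] using (hval v c _).1 e1
  · exact absurd hc (not_lt.2 e2)
  · rw [hg] at e2
    obtain rfl : s = 1 := Fin.ext e3
    refine ⟨_, e2, ?_⟩
    simpa [v.2] using fun h => (hs _).1 e1 ((hval v c _).2 h)

/-- The arc relation on numbers. -/
def arcN3 (φ : CNF) (x : (ℕ × ℕ) × ℕ) (r : ℕ) (y : (ℕ × ℕ) × ℕ) (t : ℕ) : Prop :=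
  arcC (fun x : (ℕ × ℕ) × ℕ =>
      ((if x.2 = 0 then x.1.1 else if (x.1.2 + 1) % (φ.length + 1) = 0 then
        (x.1.1 + 1) % (sz φ + 1) else x.1.1,
        if x.2 = 0 then x.1.2 else (x.1.2 + 1) % (φ.length + 1)), (x.2 + 1) % (1 + 1)))
    (fun x => ((if x.2 = 0 then x.1.1 else (x.1.1 + 1) % (sz φ + 1), x.1.2), (x.2 + 1) % (1 + 1)))
    (fun x => x.2 = 1 ∧ x.1.2 = φ.length)
    (fun x => (x.2 = 0 ∧ lit φ x.1.2 x.1.1 true) ∨ (x.2 = 1 ∧ lit φ x.1.2 x.1.1 false)) x r y t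

theorem arc_iff3 (φ : CNF) (x y : Cell φ) (r t : ℕ) :
    arcC (net φ).nx (net φ).dn (net φ).brk (net φ).has x r y t ↔
      arcN3 φ ((x.1.1.val, x.1.2.val), x.2.val) r ((y.1.1.val, y.1.2.val), y.2.val) t := by
  obtain ⟨⟨v, c⟩, s⟩ := x
  obtain ⟨⟨v', c'⟩, s'⟩ := y
  simp only [arcC, arcN3, net, dbl, grid, nxE, Equiv.prodCongr_apply, Equiv.coe_refl,
    Equiv.coe_addRight, Prod.map, id, Equiv.coe_fn_mk, Prod.ext_iff, Fin.ext_iff, val_add_one',
    apply_ite Fin.val, apply_ite Prod.fst, apply_ite Prod.snd, Fin.val_zero, ite_self]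

/-- Number of vertices. -/
def nV3 (φ : CNF) : ℕ := (sz φ + 1) * (φ.length + 1) * 2 * 11 * (12 + 2)

/-- Numbering of the vertices of the digraph. -/
def numD (φ : CNF) : Fin ((sz φ + 1) * (φ.length + 1) * 2 * 11) ≃ Cell φ × Fin 11 :=
  finProdFinEquiv.symm.trans (Equiv.prodCongr (finProdFinEquiv.symm.trans
    (Equiv.prodCongr finProdFinEquiv.symm (Equiv.refl _))) (Equiv.refl _))

/-- Numbering of the vertices. -/
def num3 (φ : CNF) : Fin (nV3 φ) ≃ (Cell φ × Fin 11) × Fin (12 + 2) :=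
  finProdFinEquiv.symm.trans (Equiv.prodCongr (numD φ) (Equiv.refl _))

/-- The graph of a formula. -/
def graph3 (φ : CNF) : SimpleGraph (Fin (nV3 φ)) :=
  (subdiv (net φ).D 12).comap (num3 φ).toEmbedding

/-- The arc relation on vertex numbers of the digraph. -/
def arcQ3 (φ : CNF) (p q : ℕ) : Prop :=
  arcN3 φ ((p / 11 / 2 / (φ.length + 1), p / 11 / 2 % (φ.length + 1)), p / 11 % 2) (p % 11)
    ((q / 11 / 2 / (φ.length + 1), q / 11 / 2 % (φ.length + 1)), q / 11 % 2) (q % 11)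

/-- Adjacency on vertex numbers. -/
def adjN3 (φ : CNF) (a b : ℕ) : Prop :=
  (a / (12 + 2) = b / (12 + 2) ∧ b % (12 + 2) = a % (12 + 2) + 1) ∨
  (a / (12 + 2) = b / (12 + 2) ∧ a % (12 + 2) = b % (12 + 2) + 1) ∨
  (a % (12 + 2) = 12 + 1 ∧ b % (12 + 2) = 0 ∧ arcQ3 φ (a / (12 + 2)) (b / (12 + 2))) ∨
  (b % (12 + 2) = 12 + 1 ∧ a % (12 + 2) = 0 ∧ arcQ3 φ (b / (12 + 2)) (a / (12 + 2)))

theorem graph3_adj (φ : CNF) (a b : Fin (nV3 φ)) :
    (graph3 φ).Adj a b ↔ adjN3 φ a.val b.val := by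
  have h1 : ∀ a b : Fin (nV3 φ),
      (num3 φ a).1 = (num3 φ b).1 ↔ a.val / (12 + 2) = b.val / (12 + 2) := by
    intro a b
    exact ((numD φ).apply_eq_iff_eq (x := Fin.divNat a) (y := Fin.divNat b)).trans Fin.ext_iff
  simp only [graph3, comap_adj, Equiv.coe_toEmbedding, subdiv_adj, h1, Net.D, arc_iff3]
  rfl

open Classical in
theorem pt_graph3 : PT (fun φ : CNF => adjacencyBits (graph3 φ)) := by
  simp only [adjacencyBits_eq _ _ (graph3_adj _)]
  unfold adjN3 arcQ3 arcN3 arcC locC lit nV3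
  fun_prop

theorem graph3_free (φ : CNF) {j : ℕ} (h6 : 6 ≤ j) (hj : j ≤ 12) : (treeH j).Free (graph3 φ) :=
  (free_congr_right (Iso.comap (num3 φ) _)).2 ((net φ).free h6 hj)

theorem graph3_ham (φ : CNF) : Sat φ ↔ HasHamiltonianCycle (graph3 φ) :=
  (Iff.intro (ham_of_sat3 (by omega)) (sat_of_ham3 (by omega))).trans
    (hasHam_congr (Iso.comap (num3 φ) _)).symm

theorem graph3_bip (φ : CNF) : (graph3 φ).Colorable 2 := by
  refine ⟨Coloring.mk (fun a => (⟨a.val % 2, Nat.mod_lt _ two_pos⟩ : Fin 2)) fun {a b} h => ?_⟩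
  rw [graph3_adj] at h
  simp only [adjN3] at h
  simp only [ne_eq, Fin.mk.injEq]
  omega

theorem graph3_deg (φ : CNF) (a : Fin (nV3 φ)) : ((graph3 φ).neighborSet a).ncard ≤ 3 := by
  refine le_trans ?_ (subdiv_deg (j := 12) (by omega) (net φ).out_two (net φ).in_two (num3 φ a))
  exact Set.ncard_le_ncard_of_injOn (num3 φ) (fun b hb => hb) (num3 φ).injective.injOn

theorem hardness3 {L : List Bool → Bool} (hL : L ∈ N68a2faeb.NP) :
    ∃ f : List Bool → List Bool, N68a2faeb.IsPolyTime f ∧ ∀ x, ∃ (n : ℕ) (G : SimpleGraph (Fin n)),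
      f x = adjacencyBits G ∧ G.Colorable 2 ∧ (∀ v, (G.neighborSet v).ncard ≤ 3) ∧
        (∀ j, 6 ≤ j → j ≤ 11 → (treeH j).Free G) ∧ (L x ↔ HasHamiltonianCycle G) := by
  obtain ⟨f, hf, h⟩ := cookLevin hL
  exact ⟨fun x => adjacencyBits (graph3 (f x)), (pt_graph3.comp hf).isPolyTime_bits,
    fun x => ⟨_, _, rfl, graph3_bip _, graph3_deg _, fun j h6 hj => graph3_free _ h6 (by omega),
      (h x).trans (graph3_ham _)⟩⟩

theorem complete_small {j : ℕ} (h6 : 6 ≤ j) (hj : j ≤ 11) :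
    N793a5b8e.IsCompleteFor N68a2faeb.NP (hamiltonianFreeLanguage j) := by
  classical
  refine ⟨member (by omega), fun L hL => ?_⟩
  obtain ⟨f, hf, h⟩ := hardness3 hL
  refine ⟨f, hf, fun x => ?_⟩
  obtain ⟨n, G, h1, -, -, h2, h3⟩ := h x
  rw [Bool.eq_iff_iff, h3]
  simp only [hamiltonianFreeLanguage, decide_eq_true_eq]
  constructor
  · intro hG
    exact ⟨n, G, h1, h2 j h6 hj, hG⟩
  · rintro ⟨m, H, e, -, hH⟩
    obtain ⟨φ⟩ := adjacencyBits_inj (h1.symm.trans e)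
    exact (hasHam_congr φ).2 hH

end Pool.Agent.MP_2e8011_m
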