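import Pool.Agent.Mg.F2e8011.G70f6d4

/-! Two facts on subdivided digraphs. -/

namespace Pool.Agent.MP_2e8011_m

open SimpleGraph Pool.Agent.MP_2e8011_lc

section

variable {V : Type} [DecidableEq V] [Fintype V]

theorem succ_closed {D : V → V → Prop} {j : ℕ} (hj : 1 ≤ j)
    (h : HasHamiltonianCycle (subdiv D j)) :
    ∃ σ : V → V, (∀ v, D v (σ v)) ∧ Function.Injective σ ∧
      ∀ S : V → Prop, (∀ v, S v → S (σ v)) → ∀ u v, S u → S v := by
  obtain ⟨τ, hadj, hinj, h2, hreach⟩ := succ_of_hasHam h
  have hsurj : Function.Surjective τ := Finite.surjective_of_injective hinj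
  -- the two cycle neighbours
  let N : V × Fin (j + 2) → V × Fin (j + 2) → Prop := fun a b => τ a = b ∨ τ b = a
  have hNs : ∀ a b, N a b → N b a := fun a b h => h.symm
  have hNadj : ∀ a b, N a b → (subdiv D j).Adj a b := by
    rintro a b (rfl | rfl)
    · exact hadj a
    · exact (hadj b).symm
  have hN2 : ∀ a, ∃ b c, b ≠ c ∧ N a b ∧ N a c := by
    intro a
    obtain ⟨c, rfl⟩ := hsurj a
    exact ⟨_, c, h2 c, Or.inl rfl, Or.inr rfl⟩
  have hN3 : ∀ a b c d, N a b → N a c → N a d → b = c ∨ b = d ∨ c = d := by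
    rintro a b c d (hb | hb) (hc | hc) (hd | hd)
    all_goals first
      | exact Or.inl (hb.symm.trans hc)
      | exact Or.inr (Or.inl (hb.symm.trans hd))
      | exact Or.inr (Or.inr (hc.symm.trans hd))
      | exact Or.inl (hinj (hb.trans hc.symm))
      | exact Or.inr (Or.inl (hinj (hb.trans hd.symm)))
      | exact Or.inr (Or.inr (hinj (hc.trans hd.symm)))
  have hint : ∀ (v : V) (i : ℕ) (hi : i + 2 < j + 2),
      N (v, ⟨i + 1, by omega⟩) (v, ⟨i, by omega⟩) ∧ N (v, ⟨i + 1, by omega⟩) (v, ⟨i + 2, hi⟩) := by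
    intro v i hi
    obtain ⟨b, c, hbc, hb, hc⟩ := hN2 (v, ⟨i + 1, by omega⟩)
    have key : ∀ b, N (v, ⟨i + 1, by omega⟩) b →
        b = (v, ⟨i, by omega⟩) ∨ b = (v, ⟨i + 2, hi⟩) := by
      rintro ⟨w, k⟩ hb
      have := subdiv_adj.1 (hNadj _ _ hb)
      simp only [Prod.mk.injEq, Fin.ext_iff] at this ⊢
      rcases this with h | h | h | h
      · exact Or.inr ⟨h.1.symm, h.2⟩
      · exact Or.inl ⟨h.1.symm, by omega⟩
      · omega
      · omega
    rcases key b hb with rfl | rfl <;> rcases key c hc with rfl | rfl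
    · exact absurd rfl hbc
    · exact ⟨hb, hc⟩
    · exact ⟨hc, hb⟩
    · exact absurd rfl hbc
  have hfirst : ∀ v : V, N (v, 0) (v, ⟨1, by omega⟩) := fun v => hNs _ _ (hint v 0 (by omega)).1
  have hlast : ∀ v : V, N (v, Fin.last (j + 1)) (v, ⟨j, by omega⟩) := by
    intro v
    have := hNs _ _ (hint v (j - 1) (by omega)).2
    have e1 : (⟨j - 1 + 2, by omega⟩ : Fin (j + 2)) = Fin.last (j + 1) := by
      ext; simp only [Fin.val_last]; omega
    have e2 : (⟨j - 1 + 1, by omega⟩ : Fin (j + 2)) = ⟨j, by omega⟩ := by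
      ext; simp only; omega
    rwa [e1, e2] at this
  have hout : ∀ v : V, ∃ w, D v w ∧ N (v, Fin.last (j + 1)) (w, 0) := by
    intro v
    obtain ⟨b, c, hbc, hb, hc⟩ := hN2 (v, Fin.last (j + 1))
    have key : ∀ b, N (v, Fin.last (j + 1)) b →
        b = (v, ⟨j, by omega⟩) ∨ ∃ w, D v w ∧ b = (w, 0) := by
      rintro ⟨w, k⟩ hb
      have := subdiv_adj.1 (hNadj _ _ hb)
      have hk := k.2
      simp only [Prod.mk.injEq, Fin.ext_iff, Fin.val_last, Fin.val_zero] at this ⊢
      rcases this with h | h | h | h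
      · omega
      · exact Or.inl ⟨h.1.symm, by omega⟩
      · exact Or.inr ⟨w, h.2.2, rfl, h.2.1⟩
      · omega
    rcases key b hb with rfl | ⟨w, hw, rfl⟩
    · rcases key c hc with rfl | ⟨w, hw, rfl⟩
      · exact absurd rfl hbc
      · exact ⟨w, hw, hc⟩
    · exact ⟨w, hw, hb⟩
  choose σ hσ hσN using hout
  have hσinj : Function.Injective σ := by
    intro u u' huu
    have e1 := hNs _ _ (hσN u)
    have e2 := hNs _ _ (hσN u')
    rw [← huu] at e2
    rcases hN3 _ _ _ _ e1 e2 (hfirst _) with h | h | h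
    · exact (Prod.ext_iff.1 h).1
    · have := congrArg (fun a => a.2.val) h
      simp at this; omega
    · have := congrArg (fun a => a.2.val) h
      simp at this; omega
  refine ⟨σ, hσ, hσinj, fun S hS u v hu => ?_⟩
  have hit : ∀ n w, S w → S (σ^[n] w) := by
    intro n
    induction n with
    | zero => exact fun w hw => hw
    | succ n ih => exact fun w hw => ih _ (hS w hw)
  have hback : ∀ w, S (σ w) → S w := by
    intro w hw
    obtain ⟨n, hn, e⟩ := hσinj.mem_periodicPts w
    obtain ⟨k, rfl⟩ : ∃ k, n = k + 1 := ⟨n - 1, by omega⟩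
    have := hit k _ hw
    rwa [← Function.iterate_succ_apply, e.eq] at this
  have hclosed : ∀ a, S a.1 → S (τ a).1 := by
    rintro ⟨v, i⟩ hv
    have hN : N (v, i) (τ (v, i)) := Or.inl rfl
    have hA := subdiv_adj.1 (hadj (v, i))
    simp only at hv hA
    rcases hA with h | h | h | h
    · rwa [← h.1]
    · rwa [← h.1]
    · have hi : i = Fin.last (j + 1) := Fin.ext h.1
      subst hi
      rcases hN3 _ _ _ _ hN (hσN v) (hlast v) with h' | h' | h'
      · rw [h']
        exact hS v hv
      · rwa [h']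
      · have := congrArg (fun a => a.2.val) h'
        simp at this; omega
    · have hi : i = 0 := Fin.ext h.2.1
      subst hi
      obtain ⟨w, hw⟩ := Finite.surjective_of_injective hσinj v
      have hw' : S w := hback w (hw ▸ hv)
      have e1 := hNs _ _ (hσN w)
      rw [hw] at e1
      rcases hN3 _ _ _ _ hN e1 (hfirst v) with h' | h' | h'
      · rwa [h']
      · rwa [h']
      · have := congrArg (fun a => a.2.val) h'
        simp at this; omega
  have hall : ∀ n, S (τ^[n] (u, 0)).1 := by
    intro n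
    induction n with
    | zero => exact hu
    | succ n ih => rw [Function.iterate_succ_apply']; exact hclosed _ ih
  obtain ⟨n, hn⟩ := hreach (u, 0) (v, 0)
  have := hall n
  rwa [hn] at this

omit [DecidableEq V] [Fintype V] in
/-- If the components of the bipartite graph of arcs have at most `m + 2` vertices, the
subdivided graph has no subgraph `H_m` for `m ≤ j`. -/
theorem subdiv_free_le {C : Type} {D : V → V → Prop} {m j L : ℕ} (hm : 1 ≤ m) (hj : m ≤ j)
    (hL : L ≤ m + 2)
    (comp : V × Bool → C) (tag : V × Bool → ℕ) (htag : ∀ e, tag e < L)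
    (hinj : ∀ e e', comp e = comp e' → tag e = tag e' → e = e')
    (hD : ∀ u w, D u w → comp (u, true) = comp (w, false)) : (treeH m).Free (subdiv D j) := by
  rintro ⟨φ⟩
  let End : V × Fin (j + 2) → Prop := fun a => a.2.val = 0 ∨ a.2.val = j + 1
  let nm : V × Fin (j + 2) → V × Bool := fun a => (a.1, decide (a.2.val ≠ 0))
  have hnm : ∀ a b, End a → End b → nm a = nm b → a = b := by
    rintro ⟨v, i⟩ ⟨w, k⟩ ha hb h
    simp only [End, nm, Prod.mk.injEq, decide_eq_decide, Fin.ext_iff] at ha hb h ⊢
    exact ⟨h.1, by omega⟩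
  have hcomp : ∀ a b, End a → End b → (subdiv D j).Adj a b → comp (nm a) = comp (nm b) := by
    rintro ⟨v, i⟩ ⟨w, k⟩ ha hb h
    rw [subdiv_adj] at h
    simp only [End, nm] at ha hb h ⊢
    rcases h with h | h | h | h
    · omega
    · omega
    · simpa [h.1, h.2.1] using hD _ _ h.2.2
    · simpa [h.1, h.2.1] using (hD _ _ h.2.2).symm
  -- a vertex with three neighbours is an end
  have hdeg : ∀ a b c d, (subdiv D j).Adj a b → (subdiv D j).Adj a c → (subdiv D j).Adj a d →
      b ≠ c → b ≠ d → c ≠ d → End a := by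
    rintro ⟨v, i⟩ ⟨vb, ib⟩ ⟨vc, ic⟩ ⟨vd, id⟩ hb hc hd hbc hbd hcd
    by_contra hE
    rw [subdiv_adj] at hb hc hd
    simp only [End, ne_eq, Prod.mk.injEq, Fin.ext_iff, not_or] at *
    grind
  -- an end has only one neighbour that is not an end
  have hone : ∀ a b c, End a → (subdiv D j).Adj a b → (subdiv D j).Adj a c → b ≠ c →
      End b ∨ End c := by
    rintro ⟨v, i⟩ ⟨vb, ib⟩ ⟨vc, ic⟩ ha hb hc hbc
    have := ib.2
    have := ic.2
    rw [subdiv_adj] at hb hc
    simp only [End, ne_eq, Prod.mk.injEq, Fin.ext_iff] at *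
    grind
  let p : ℕ → V × Fin (j + 2) := fun i => φ ⟨min i (m + 4), by omega⟩
  have hp : ∀ i (hi : i < m + 5), p i = φ ⟨i, hi⟩ := fun i hi => by
    simp only [p]; congr 2; omega
  have hpinj : ∀ i < m + 5, ∀ k < m + 5, p i = p k → i = k := fun i hi k hk h => by
    rw [hp i hi, hp k hk] at h
    simpa using φ.injective h
  have hpath : ∀ i < m, (subdiv D j).Adj (p i) (p (i + 1)) := fun i hi => by
    rw [hp i (by omega), hp (i + 1) (by omega)]
    exact φ.toHom.map_adj (treeH_adj_path i hi)
  have hleft : ∀ e, 1 ≤ e → e ≤ 2 → (subdiv D j).Adj (p 0) (p (m + e)) := fun e h1 h2 => by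
    rw [hp 0 (by omega), hp (m + e) (by omega)]
    exact φ.toHom.map_adj (treeH_adj_left e h1 h2)
  have hright : ∀ e, 3 ≤ e → e ≤ 4 → (subdiv D j).Adj (p m) (p (m + e)) := fun e h1 h2 => by
    rw [hp m (by omega), hp (m + e) (by omega)]
    exact φ.toHom.map_adj (treeH_adj_right e h1 h2)
  have hne : ∀ i k, i < m + 5 → k < m + 5 → i ≠ k → p i ≠ p k :=
    fun i k hi hk h h' => h (hpinj i hi k hk h')
  have hE0 : End (p 0) := hdeg _ _ _ _ (hpath 0 hm) (hleft 1 le_rfl one_le_two)
    (hleft 2 one_le_two le_rfl) (hne _ _ (by omega) (by omega) (by omega))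
    (hne _ _ (by omega) (by omega) (by omega)) (hne _ _ (by omega) (by omega) (by omega))
  have hEj : End (p m) := by
    have := (hpath (m - 1) (by omega)).symm
    rw [show m - 1 + 1 = m by omega] at this
    exact hdeg _ _ _ _ this (hright 3 le_rfl (by omega))
      (hright 4 (by omega) le_rfl) (hne _ _ (by omega) (by omega) (by omega))
      (hne _ _ (by omega) (by omega) (by omega)) (hne _ _ (by omega) (by omega) (by omega))
  -- the path never enters the interior of a long path
  have hE : ∀ i ≤ m, End (p i) := by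
    intro i
    induction i with
    | zero => intro _; exact hE0
    | succ i ih =>
      intro hi
      have hEi := ih (by omega)
      by_contra hn
      have key : ∀ t, 1 ≤ t → i + t ≤ m → (p (i + t)).1 = (p i).1 ∧ (p (i + t - 1)).1 = (p i).1 ∧
          (((p i).2.val = 0 ∧ (p (i + t)).2.val = t ∧ (p (i + t - 1)).2.val + 1 = t) ∨
          ((p i).2.val = j + 1 ∧ (p (i + t)).2.val + t = j + 1 ∧
            (p (i + t - 1)).2.val + t = j + 2)) := by
        intro t ht
        induction t, ht using Nat.le_induction with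
        | base =>
          intro _
          have := subdiv_adj.1 (hpath i (by omega))
          simp only [End, add_tsub_cancel_right] at *
          grind
        | succ t ht ih =>
          intro hit
          have h1 := ih (by omega)
          have h2 := subdiv_adj.1 (hpath (i + t) (by omega))
          have h3 := hne (i + t + 1) (i + t - 1) (by omega) (by omega) (by omega)
          rw [Ne, Prod.ext_iff, Fin.ext_iff] at h3
          rw [← add_assoc, add_tsub_cancel_right]
          grind
      have := key (m - i) (by omega) (by omega)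
      rw [show i + (m - i) = m by omega] at this
      simp only [End] at hEj
      omega
  have hc : ∀ i ≤ m, comp (nm (p i)) = comp (nm (p 0)) := by
    intro i
    induction i with
    | zero => intro _; rfl
    | succ i ih =>
      intro hi
      rw [← ih (by omega)]
      exact (hcomp _ _ (hE i (by omega)) (hE _ hi) (hpath i hi)).symm
  obtain ⟨e₁, he₁, hE₁⟩ : ∃ e, (1 ≤ e ∧ e ≤ 2) ∧ End (p (m + e)) := by
    rcases hone _ _ _ hE0 (hleft 1 le_rfl one_le_two) (hleft 2 one_le_two le_rfl)
      (hne _ _ (by omega) (by omega) (by omega)) with h | h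
    · exact ⟨1, by omega, h⟩
    · exact ⟨2, by omega, h⟩
  obtain ⟨e₂, he₂, hE₂⟩ : ∃ e, (3 ≤ e ∧ e ≤ 4) ∧ End (p (m + e)) := by
    rcases hone _ _ _ hEj (hright 3 le_rfl (by omega)) (hright 4 (by omega) le_rfl)
      (hne _ _ (by omega) (by omega) (by omega)) with h | h
    · exact ⟨3, by omega, h⟩
    · exact ⟨4, by omega, h⟩
  let ix : ℕ → ℕ := fun i => if i ≤ m then i else if i = m + 1 then m + e₁ else m + e₂
  have hix : ∀ i, End (p (ix i)) ∧ comp (nm (p (ix i))) = comp (nm (p 0)) := by
    intro i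
    simp only [ix]
    split_ifs with h1 h2
    · exact ⟨hE i h1, hc i h1⟩
    · exact ⟨hE₁, (hcomp _ _ hE0 hE₁ (hleft _ he₁.1 he₁.2)).symm⟩
    · exact ⟨hE₂, (hcomp _ _ hEj hE₂ (hright _ he₂.1 he₂.2)).symm.trans (hc m le_rfl)⟩
  have hcard := Finset.card_le_card_of_injOn (s := Finset.range (m + 3)) (t := Finset.range L)
    (fun i => tag (nm (p (ix i)))) (fun i _ => by simpa using htag _) (by
      intro i hi k hk h
      simp only [Finset.coe_range, Set.mem_Iio] at hi hk
      have h1 := hnm _ _ (hix i).1 (hix k).1 (hinj _ _ ((hix i).2.trans (hix k).2.symm) h)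
      have h2 := hpinj _ (by simp only [ix]; split_ifs <;> omega) _
        (by simp only [ix]; split_ifs <;> omega) h1
      simp only [ix] at h2
      split_ifs at h2 <;> omega)
  simp only [Finset.card_range] at hcard
  omega

end

end Pool.Agent.MP_2e8011_m
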